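import Pool.Agent.W209.KT.Stm

/-!
# Project KT (owner helper209), part KT-SQ
-/

set_option autoImplicit false

open Filter MeasureTheory

namespace Pool.Agent.W849.KT

open Pool.Agent.W209.KT

theorem sqrt2_bad (m a : ℤ) (hm : m ≠ 0) :
    1 ≤ 4 * |(m : ℝ)| * |Real.sqrt 2 * m - a| ∨ 1 / 2 < |Real.sqrt 2 * m - a| := by
  by_contra hcon
  rw [not_or, not_le, not_lt] at hcon
  obtain ⟨h1, h2⟩ := hcon
  have hm1 : (1:ℝ) ≤ |(m : ℝ)| := by
    have : 1 ≤ |m| := Int.one_le_abs hm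
    exact_mod_cast this
  have hs2 : Real.sqrt 2 * Real.sqrt 2 = 2 := Real.mul_self_sqrt (by norm_num)
  have hs0 := Real.sqrt_nonneg 2
  have hs : Real.sqrt 2 ≤ 3 / 2 := by
    rw [Real.sqrt_le_left (by norm_num)]; norm_num
  have hne : 2 * m ^ 2 - a ^ 2 ≠ 0 := by
    intro h0
    have h3 : ((2:ℤ) : ℝ) * (m:ℝ) ^ 2 = (a:ℝ) ^ 2 := by
      have := congrArg (fun x : ℤ => (x : ℝ)) h0
      push_cast at this ⊢
      linarith
    have hir := irrational_sqrt_two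
    apply hir
    have hm0 : (m : ℝ) ≠ 0 := by exact_mod_cast hm
    refine ⟨|(a : ℚ) / m|, ?_⟩
    push_cast
    have h4 : |(a:ℝ) / m| ^ 2 = 2 := by
      rw [sq_abs, div_pow, ← h3]
      push_cast
      field_simp
    rw [← h4, Real.sqrt_sq (abs_nonneg _)]
  have h5 : (1:ℝ) ≤ |2 * (m:ℝ) ^ 2 - (a:ℝ) ^ 2| := by
    have : 1 ≤ |2 * m ^ 2 - a ^ 2| := Int.one_le_abs hne
    exact_mod_cast this
  have h6 : 2 * (m:ℝ) ^ 2 - (a:ℝ) ^ 2 = (Real.sqrt 2 * m - a) * (Real.sqrt 2 * m + a) := by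
    have : (Real.sqrt 2 * m - a) * (Real.sqrt 2 * m + a) =
      (Real.sqrt 2 * Real.sqrt 2) * (m:ℝ) ^ 2 - (a:ℝ) ^ 2 := by ring
    rw [this, hs2]
  rw [h6, abs_mul] at h5
  have h7 : |Real.sqrt 2 * m + a| ≤ 4 * |(m:ℝ)| := by
    have e : Real.sqrt 2 * m + a = 2 * (Real.sqrt 2 * m) - (Real.sqrt 2 * m - a) := by ring
    rw [e]
    refine (abs_sub _ _).trans ?_
    rw [abs_mul, abs_mul, abs_of_nonneg hs0, abs_of_nonneg (by norm_num : (0:ℝ) ≤ 2)]
    nlinarith [abs_nonneg (m:ℝ)]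
  have h8 := mul_le_mul_of_nonneg_left h7 (abs_nonneg (Real.sqrt 2 * m - a))
  nlinarith

theorem sq : S_sq := by
  refine ⟨16, by norm_num, ?_⟩
  intro T ε hε
  set S : Set ℤ := {m : ℤ | |m| ≤ (T : ℤ) ∧ nrm (Real.sqrt 2 * m) ≤ ε} with hS
  by_cases hbig : 1 / 4 ≤ ε
  · -- trivial bound
    have h1 : S ⊆ ↑(Finset.Icc (-(T:ℤ)) T) := by
      intro m hm
      rw [Finset.coe_Icc, Set.mem_Icc]
      exact abs_le.mp hm.1
    have h2 : S.ncard ≤ 2 * T + 1 := by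
      refine le_trans (Set.ncard_le_ncard h1 (Finset.finite_toSet _)) ?_
      rw [Set.ncard_coe_finset, Int.card_Icc]
      omega
    have h3 : (S.ncard : ℝ) ≤ 2 * T + 1 := by exact_mod_cast h2
    have hT : (0:ℝ) ≤ T := Nat.cast_nonneg _
    nlinarith
  · rw [not_le] at hbig
    have hsep : ∀ m ∈ S, ∀ m' ∈ S, m ≠ m' → 1 ≤ 8 * ε * |(m:ℝ) - m'| := by
      intro m hm m' hm' hne
      obtain ⟨a, ha⟩ : ∃ a : ℤ, a = round (Real.sqrt 2 * m) - round (Real.sqrt 2 * m') := ⟨_, rfl⟩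
      have h1 := hm.2
      have h2 := hm'.2
      unfold nrm at h1 h2
      have h3 : |Real.sqrt 2 * ((m - m' : ℤ) : ℝ) - a| ≤ 2 * ε := by
        rw [ha]
        push_cast
        have e : Real.sqrt 2 * ((m:ℝ) - m') - ((round (Real.sqrt 2 * m) : ℝ) -
          (round (Real.sqrt 2 * m') : ℝ)) = (Real.sqrt 2 * m - round (Real.sqrt 2 * m)) -
          (Real.sqrt 2 * m' - round (Real.sqrt 2 * m')) := by ring
        rw [e]
        refine (abs_sub _ _).trans ?_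
        linarith
      rcases sqrt2_bad (m - m') a (sub_ne_zero.mpr hne) with h4 | h4
      · push_cast at h4 h3
        have h5 := mul_le_mul_of_nonneg_left h3 (abs_nonneg ((m:ℝ) - m'))
        nlinarith
      · linarith
    -- injection
    have hinj : Set.InjOn (fun m : ℤ => ⌊((m:ℝ) + T) * (8 * ε)⌋) S := by
      intro m hm m' hm' heq
      by_contra hne
      have h1 := hsep m hm m' hm' hne
      have h2 : |((m:ℝ) + T) * (8 * ε) - ((m':ℝ) + T) * (8 * ε)| < 1 :=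
        Int.abs_sub_lt_one_of_floor_eq_floor heq
      have e : ((m:ℝ) + T) * (8 * ε) - ((m':ℝ) + T) * (8 * ε) = 8 * ε * ((m:ℝ) - m') := by ring
      rw [e, abs_mul, abs_of_pos (by positivity)] at h2
      linarith
    have hmaps : Set.MapsTo (fun m : ℤ => ⌊((m:ℝ) + T) * (8 * ε)⌋) S
        ↑(Finset.Icc (0:ℤ) ⌊(2 * T : ℝ) * (8 * ε)⌋) := by
      intro m hm
      have h0 := abs_le.mp hm.1
      have h1 : -(T:ℝ) ≤ m := by exact_mod_cast h0.1
      have h2 : (m:ℝ) ≤ T := by exact_mod_cast h0.2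
      rw [Finset.coe_Icc, Set.mem_Icc]
      constructor
      · apply Int.floor_nonneg.mpr
        have : 0 ≤ (m:ℝ) + T := by linarith
        positivity
      · apply Int.floor_le_floor
        have : (m:ℝ) + T ≤ 2 * T := by linarith
        gcongr
    have hcard : S.ncard ≤ (Finset.Icc (0:ℤ) ⌊(2 * T : ℝ) * (8 * ε)⌋).card := by
      rw [← Set.ncard_coe_finset]
      exact Set.ncard_le_ncard_of_injOn _ hmaps hinj (Finset.finite_toSet _)
    rw [Int.card_Icc] at hcard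
    have hfl : 0 ≤ ⌊(2 * T : ℝ) * (8 * ε)⌋ := Int.floor_nonneg.mpr (by positivity)
    have h9 : (S.ncard : ℤ) ≤ ⌊(2 * T : ℝ) * (8 * ε)⌋ + 1 := by omega
    have h10 : (S.ncard : ℝ) ≤ (⌊(2 * T : ℝ) * (8 * ε)⌋ : ℝ) + 1 := by exact_mod_cast h9
    have h11 := Int.floor_le ((2 * T : ℝ) * (8 * ε))
    linarith

end Pool.Agent.W849.KT
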