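import Pool.Agent.W209.KT.Stm

/-!
# Project KT (owner helper209), part KT-CURVE
-/

set_option autoImplicit false

open Filter MeasureTheory

namespace Pool.Agent.W849.KT

open Pool.Agent.W209.KT

theorem lev_bound (k : ℕ) : ((2:ℝ) ^ lev k) ^ 55 * 40940 ≤ (D k : ℝ) := by
  have h1 : lev k ≤ k + 1 := Nat.log_le_self _ _
  have h2 : k < 36 ^ k := Nat.lt_pow_self (by norm_num)
  have h3 : 55 * lev k + 16 ≤ 1000 * 36 ^ k := by omega
  have h4 : (2:ℝ) ^ (55 * lev k + 16) ≤ 2 ^ (1000 * 36 ^ k) :=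
    pow_le_pow_right₀ (by norm_num) h3
  have h5 : (D k : ℝ) = 2 ^ (1000 * 36 ^ k) := by
    unfold D; push_cast; ring
  rw [h5]
  refine le_trans ?_ h4
  rw [pow_add, ← pow_mul, mul_comm (lev k) 55]
  have h6 : (0:ℝ) < 2 ^ (55 * lev k) := by positivity
  nlinarith

theorem g_sum (u t : ℝ) : ∑ l : Fin 11, g u l * t ^ l.1 = (t - u) ^ 10 := by
  have h1 : ∑ l : Fin 11, g u l * t ^ l.1 =
      ∑ l ∈ Finset.range 11, (Nat.choose 10 l : ℝ) * (-u) ^ (10 - l) * t ^ l :=
    Fin.sum_univ_eq_sum_range (fun l => (Nat.choose 10 l : ℝ) * (-u) ^ (10 - l) * t ^ l) 11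
  rw [h1, sub_eq_add_neg, add_pow]
  refine Finset.sum_congr rfl (fun l _ => ?_)
  ring

theorem p_facts (k : ℕ) (j : Fin 2) : 0 < p k j ∧ p k j ≤ D k ∧ D k ≤ 3 * p k j := by
  have hD : 0 < D k := by unfold D; positivity
  unfold p
  split_ifs with h
  · exact ⟨hD, le_refl _, by omega⟩
  · unfold E
    refine ⟨by positivity, Nat.pow_log_le_self 3 hD.ne', ?_⟩
    have := Nat.lt_pow_succ_log_self (b := 3) (by norm_num) (D k)
    rw [Nat.succ_eq_add_one, pow_succ] at this
    omega

theorem curve (h1 : S_pig) (h2 : S_cov) : S_curve := by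
  intro A s hG k t ht1 ht2 htu
  have hDpos : 0 < D k := by unfold D; positivity
  have hpig : (D k * 2 ^ (5 * lev k)) ^ 10 * (p k 0 * p k 1) ≤ D k ^ 12 * 2 ^ (50 * lev k) := by
    have e1 := (p_facts k 0).2.1
    have e2 := (p_facts k 1).2.1
    calc (D k * 2 ^ (5 * lev k)) ^ 10 * (p k 0 * p k 1)
        ≤ (D k * 2 ^ (5 * lev k)) ^ 10 * (D k * D k) := by gcongr
      _ = D k ^ 12 * 2 ^ (50 * lev k) := by
          rw [mul_pow, ← pow_mul]
          have : 5 * lev k * 10 = 50 * lev k := by ring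
          rw [this]; ring
  obtain ⟨q, y, hq, hqQ, hy, hdv⟩ := h1 (s k) (p k) (fun j => (p_facts k j).1) (gam t)
    (D k * 2 ^ (5 * lev k)) (D k ^ 12 * 2 ^ (50 * lev k)) (by positivity) hpig
  refine ⟨q, hq, hqQ, ?_⟩
  -- real notation
  obtain ⟨d, hd⟩ : ∃ d : ℝ, d = (D k : ℝ) := ⟨_, rfl⟩
  obtain ⟨w, hw⟩ : ∃ w : ℝ, w = (2:ℝ) ^ lev k := ⟨_, rfl⟩
  have hw1 : 1 ≤ w := by rw [hw]; exact one_le_pow₀ (by norm_num)
  have hd1 : 1 ≤ d := by rw [hd]; exact_mod_cast hDpos
  have hwd : w ^ 55 * 40940 ≤ d := by rw [hd, hw]; exact lev_bound k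
  have hw0 : 0 < w := by linarith
  have hd0 : 0 < d := by linarith
  have em : (D k : ℝ) * 2 ^ (5 * lev k) = d * w ^ 5 := by
    rw [hd, hw, ← pow_mul, mul_comm (lev k) 5]
  have hqR : (q : ℝ) ≤ d ^ 12 * w ^ 50 := by
    have : (q : ℝ) ≤ ((D k ^ 12 * 2 ^ (50 * lev k) : ℕ) : ℝ) := by exact_mod_cast hqQ
    push_cast at this
    rw [hd, hw, ← pow_mul, mul_comm (lev k) 50]
    exact this
  have hq0 : (0:ℝ) ≤ q := Nat.cast_nonneg _
  have hm0 : 0 < d * w ^ 5 := by positivity
  have hyR : ∀ l : Fin 10, |(q : ℝ) * t ^ (l.1 + 1) - y l| < 1 / (d * w ^ 5) := by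
    intro l
    have := hy l
    push_cast at this
    rw [em] at this
    exact this
  rw [em]
  have hleft : ∀ l : Fin 10, nrm (q * t ^ (l.1 + 1)) < 50 / (d * w ^ 5) := by
    intro l
    unfold nrm
    refine lt_of_le_of_lt (round_le _ (y l)) (lt_of_lt_of_le (hyR l) ?_)
    gcongr
    norm_num
  have hright : ∀ j : Fin 2, nrm (q * aff A j (gam t)) < 50 / (d * w ^ 5) := by
    intro j
    obtain ⟨z, hz⟩ := hdv j
    obtain ⟨P, hP⟩ : ∃ P : ℝ, P = (p k j : ℝ) := ⟨_, rfl⟩
    have hP0 : 0 < P := by rw [hP]; exact_mod_cast (p_facts k j).1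
    have hP3 : d ≤ 3 * P := by rw [hP, hd]; exact_mod_cast (p_facts k j).2.2
    have hzR : (s k j 0 : ℝ) * q + ∑ l : Fin 10, (s k j l.succ : ℝ) * y l = P * z := by
      rw [hP]
      have := congrArg (fun x : ℤ => (x : ℝ)) hz
      push_cast at this
      exact this
    have hF : F k = d ^ 12 / w ^ 12 := by
      unfold F
      rw [hd, hw, ← pow_mul, mul_comm (lev k) 12]
    have hFpos : 0 < F k := by rw [hF]; positivity
    -- the decomposition
    have e1 : (q : ℝ) * aff A j (gam t) - z =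
        q * (∑ l : Fin 11, (A j l - s k j l / P - v j / (F k * P) * g (u k) l) * t ^ l.1) +
        q * (v j / (F k * P)) * (t - u k) ^ 10 +
        ∑ l : Fin 10, (s k j l.succ : ℝ) / P * (q * t ^ (l.1 + 1) - y l) := by
      have a1 : aff A j (gam t) = ∑ l : Fin 11, A j l * t ^ l.1 := by
        rw [Fin.sum_univ_succ]
        unfold aff gam
        simp
      have a2 : (z : ℝ) = (s k j 0 : ℝ) / P * q + ∑ l : Fin 10, (s k j l.succ : ℝ) / P * y l := by
        have : (z : ℝ) = ((s k j 0 : ℝ) * q + ∑ l : Fin 10, (s k j l.succ : ℝ) * y l) / P := by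
          rw [hzR]; field_simp
        rw [this, add_div, Finset.sum_div]
        congr 1
        · ring
        · refine Finset.sum_congr rfl (fun l _ => ?_)
          ring
      have a3 : ∑ l : Fin 11, (A j l - s k j l / P - v j / (F k * P) * g (u k) l) * t ^ l.1 =
          ∑ l : Fin 11, A j l * t ^ l.1 - ∑ l : Fin 11, (s k j l : ℝ) / P * t ^ l.1 -
          v j / (F k * P) * (t - u k) ^ 10 := by
        rw [← g_sum, Finset.mul_sum, ← Finset.sum_sub_distrib, ← Finset.sum_sub_distrib]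
        refine Finset.sum_congr rfl (fun l _ => ?_)
        ring
      have a4 : ∑ l : Fin 11, (s k j l : ℝ) / P * t ^ l.1 = (s k j 0 : ℝ) / P +
          ∑ l : Fin 10, (s k j l.succ : ℝ) / P * t ^ (l.1 + 1) := by
        rw [Fin.sum_univ_succ]
        simp
      have a5 : ∑ l : Fin 10, (s k j l.succ : ℝ) / P * (q * t ^ (l.1 + 1) - y l) =
          q * (∑ l : Fin 10, (s k j l.succ : ℝ) / P * t ^ (l.1 + 1)) -
          ∑ l : Fin 10, (s k j l.succ : ℝ) / P * y l := by
        rw [Finset.mul_sum, ← Finset.sum_sub_distrib]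
        refine Finset.sum_congr rfl (fun l _ => ?_)
        ring
      rw [a1, a2, a3, a4, a5]
      ring
    -- bounds
    have b1 : |(q : ℝ) * (∑ l : Fin 11, (A j l - s k j l / P - v j / (F k * P) * g (u k) l)
        * t ^ l.1)| ≤ 1 / (d * w ^ 5) := by
      have c1 : |∑ l : Fin 11, (A j l - s k j l / P - v j / (F k * P) * g (u k) l) * t ^ l.1| ≤
          20 / d ^ 36 * 2047 := by
        refine le_trans (Finset.abs_sum_le_sum_abs _ _) ?_
        have c2 : ∀ l : Fin 11, |(A j l - s k j l / P - v j / (F k * P) * g (u k) l) * t ^ l.1| ≤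
            20 / d ^ 36 * 2 ^ l.1 := by
          intro l
          rw [abs_mul]
          have c3 := hG.close k j l
          rw [← hP, ← hd] at c3
          have c4 : |t ^ l.1| ≤ 2 ^ l.1 := by
            rw [abs_pow, abs_of_nonneg (by linarith : (0:ℝ) ≤ t)]
            gcongr
          exact mul_le_mul c3 c4 (abs_nonneg _) (by positivity)
        refine le_trans (Finset.sum_le_sum (fun l _ => c2 l)) ?_
        rw [← Finset.mul_sum]
        have c5 : ∑ l : Fin 11, (2:ℝ) ^ l.1 = 2047 := by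
          rw [Fin.sum_univ_eq_sum_range (fun l => (2:ℝ) ^ l) 11]
          norm_num [Finset.sum_range_succ]
        rw [c5]
      rw [abs_mul, abs_of_nonneg hq0]
      calc (q : ℝ) * |∑ l : Fin 11, (A j l - s k j l / P - v j / (F k * P) * g (u k) l) * t ^ l.1|
          ≤ (d ^ 12 * w ^ 50) * (20 / d ^ 36 * 2047) :=
            mul_le_mul hqR c1 (abs_nonneg _) (by positivity)
        _ ≤ 1 / (d * w ^ 5) := by
            rw [le_div_iff₀ hm0]
            have c6 : d ^ 12 * w ^ 50 * (20 / d ^ 36 * 2047) * (d * w ^ 5) =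
                (w ^ 55 * 40940) / d ^ 23 := by
              field_simp
              ring
            rw [c6, div_le_one (by positivity)]
            refine le_trans hwd ?_
            calc d = d ^ 1 := (pow_one d).symm
              _ ≤ d ^ 23 := pow_le_pow_right₀ hd1 (by norm_num)
    have b2 : |(q : ℝ) * (v j / (F k * P)) * (t - u k) ^ 10| ≤ 5 / (d * w ^ 5) := by
      have c1 : 0 ≤ v j ∧ v j ≤ 3 / 2 := by
        unfold v
        split_ifs
        · norm_num
        · refine ⟨Real.sqrt_nonneg _, ?_⟩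
          rw [Real.sqrt_le_left (by norm_num)]
          norm_num
      have c2 : |(t - u k) ^ 10| ≤ 1 / w ^ 80 := by
        rw [abs_pow]
        have c3 : |t - u k| ≤ 1 / w ^ 8 := by
          refine le_trans htu (le_of_eq ?_)
          rw [hw, ← pow_mul, mul_comm (lev k) 8, pow_mul, one_div_pow]
          norm_num
        calc |t - u k| ^ 10 ≤ (1 / w ^ 8) ^ 10 := by gcongr
          _ = 1 / w ^ 80 := by rw [one_div_pow, ← pow_mul]
      have c4 : |(q : ℝ) * (v j / (F k * P))| ≤ d ^ 12 * w ^ 50 * (3 / 2 / (F k * P)) := by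
        have c41 := c1.1
        rw [abs_of_nonneg (by positivity)]
        have c42 := c1.2
        gcongr
      rw [abs_mul]
      calc |(q : ℝ) * (v j / (F k * P))| * |(t - u k) ^ 10|
          ≤ (d ^ 12 * w ^ 50 * (3 / 2 / (F k * P))) * (1 / w ^ 80) :=
            mul_le_mul c4 c2 (abs_nonneg _) (by positivity)
        _ = 3 / 2 / (P * w ^ 18) := by
            rw [hF]
            field_simp
        _ ≤ 5 / (d * w ^ 5) := by
            rw [div_le_div_iff₀ (by positivity) hm0]
            have c5 : w ^ 5 ≤ w ^ 18 := pow_le_pow_right₀ hw1 (by norm_num)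
            have c6 : 0 < w ^ 5 := by positivity
            have c7 : d * w ^ 5 ≤ 3 * P * w ^ 18 := mul_le_mul hP3 c5 c6.le (by positivity)
            have c8 : 0 < P * w ^ 18 := by positivity
            nlinarith
    have b3 : |∑ l : Fin 10, (s k j l.succ : ℝ) / P * (q * t ^ (l.1 + 1) - y l)| ≤
        20 / (d * w ^ 5) := by
      refine le_trans (Finset.abs_sum_le_sum_abs _ _) ?_
      have c1 : ∀ l : Fin 10, |(s k j l.succ : ℝ) / P * (q * t ^ (l.1 + 1) - y l)| ≤
          2 * (1 / (d * w ^ 5)) := by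
        intro l
        rw [abs_mul]
        have c2 : |(s k j l.succ : ℝ) / P| ≤ 2 := by
          rw [abs_div, abs_of_pos hP0, div_le_iff₀ hP0, hP]
          exact hG.bds k j l.succ
        exact mul_le_mul c2 (hyR l).le (abs_nonneg _) (by norm_num)
      refine le_trans (Finset.sum_le_sum (fun l _ => c1 l)) (le_of_eq ?_)
      rw [Finset.sum_const, Finset.card_univ, Fintype.card_fin, nsmul_eq_mul]
      push_cast
      ring
    unfold nrm
    refine lt_of_le_of_lt (round_le _ z) ?_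
    rw [e1]
    refine lt_of_le_of_lt (abs_add_le _ _) ?_
    refine lt_of_le_of_lt (add_le_add (abs_add_le _ _) le_rfl) ?_
    have b4 : 1 / (d * w ^ 5) + 5 / (d * w ^ 5) + 20 / (d * w ^ 5) < 50 / (d * w ^ 5) := by
      rw [← add_div, ← add_div]
      gcongr
      norm_num
    linarith
  intro i
  refine Fin.addCases (m := 10) (n := 2)
    (motive := fun i => nrm (q * pt A (gam t) i) < 50 / (d * w ^ 5)) ?_ ?_ i
  · intro l
    have : pt A (gam t) (Fin.castAdd 2 l) = t ^ (l.1 + 1) := Fin.append_left _ _ l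
    show nrm (q * pt A (gam t) (Fin.castAdd 2 l)) < 50 / (d * w ^ 5)
    rw [this]
    exact hleft l
  · intro j
    have : pt A (gam t) (Fin.natAdd 10 j) = aff A j (gam t) := Fin.append_right _ _ j
    show nrm (q * pt A (gam t) (Fin.natAdd 10 j)) < 50 / (d * w ^ 5)
    rw [this]
    exact hright j

end Pool.Agent.W849.KT
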